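import Mathlib
import Pool.Agent.Q264.TMGrowth

/-!
# Exponential growth rate of the Thue-Morse-twisted Fibonacci sequence

The limit `g` of `|h_n| ^ (1/n)` exists, `1.152 < g < 1.1525`, and `g ^ n / n ^ 18 ≤ |h_n| ≤ g ^ n n ^ 18`.
-/

set_option autoImplicit false

namespace Pool.Agent.Results.MP_7d59ed_nt.GrowthRate

open Filter Topology

/-- the Prouhet-Thue-Morse sequence `t_n = (-1) ^ s_2(n)`, `s_2` the sum of the binary digits -/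
def t (n : ℕ) : ℤ := (-1) ^ (Nat.digits 2 n).sum

/-- `h_0 = 0`, `h_1 = 1`, `h_n = t_n h_{n-1} + h_{n-2}` -/
def h : ℕ → ℤ
  | 0 => 0
  | 1 => 1
  | n + 2 => t (n + 2) * h (n + 1) + h n

theorem h_eq : ∀ n, h n = Q264.TMFib.h n
  | 0 => rfl
  | 1 => rfl
  | n + 2 => by
    rw [h, Q264.TMFib.h, h_eq (n + 1), h_eq n]
    rfl

/-- **Q1.** -/
theorem result : ∃ g : ℝ, 1.152 < g ∧ g < 1.1525 ∧
    Tendsto (fun n : ℕ => |(h n : ℝ)| ^ (1 / (n : ℝ))) atTop (𝓝 g) ∧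
    ∀ n : ℕ, 4 ≤ n → g ^ n / (n : ℝ) ^ 18 ≤ |(h n : ℝ)| ∧ |(h n : ℝ)| ≤ g ^ n * (n : ℝ) ^ 18 := by
  obtain ⟨g, h1, h2, h3, h4⟩ := Q264.TMFib.growth
  refine ⟨g, h1, h2, ?_, ?_⟩
  · simp only [h_eq]
    exact h4
  · intro n hn
    rw [h_eq]
    exact h3 n hn

end Pool.Agent.Results.MP_7d59ed_nt.GrowthRate
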